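import Mathlib

/-!
# Quasi-absolutely summing bilinear operators need not be strongly multiple summing
-/

namespace Pool.Agent.Results.MP_3dc8bf_an.QsNotSm

open scoped ENNReal BoundedContinuousFunction

/-- The weak `p`-norm of a sequence, with values in `[0, ∞]`. -/
noncomputable def weakNorm (𝕜 : Type) [RCLike 𝕜] (p : ℝ) {E : Type} [NormedAddCommGroup E]
    [NormedSpace 𝕜 E] (x : ℕ → E) : ℝ≥0∞ :=
  ⨆ φ : {φ : E →L[𝕜] 𝕜 // ‖φ‖ ≤ 1}, (∑' j, ‖φ.1 (x j)‖ₑ ^ p) ^ (1 / p)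

section defs

variable {𝕜 : Type} [RCLike 𝕜] {n : ℕ} {E : Fin n → Type} {F : Type}
  [∀ i, NormedAddCommGroup (E i)] [∀ i, NormedSpace 𝕜 (E i)]
  [NormedAddCommGroup F] [NormedSpace 𝕜 F]

/-- `T` is `k`-absolutely `p`-summing. -/
def AbsSummingAt (p : ℝ) (k : Fin n) (T : ContinuousMultilinearMap 𝕜 E F) : Prop :=
  ∃ C : NNReal, ∀ (a : ∀ i, E i) (x : ℕ → E k), weakNorm 𝕜 p x < ∞ →
    (∑' j, ‖T (Function.update a k (x j))‖ₑ ^ p) ^ (1 / p) ≤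
      C * weakNorm 𝕜 p x * ∏ i ∈ Finset.univ.erase k, ‖a i‖ₑ

/-- `T` is quasi-absolutely `p`-summing. -/
def QuasiSumming (p : ℝ) (T : ContinuousMultilinearMap 𝕜 E F) : Prop :=
  ∀ k : Fin n, AbsSummingAt p k T

/-- `T` is strongly multiple `p`-summing. -/
def StrongMultipleSumming (p : ℝ) (T : ContinuousMultilinearMap 𝕜 E F) : Prop :=
  ∃ C : NNReal, ∀ (m : ℕ) (x : ∀ k : Fin n, Fin m → E k),
    (∑ j : Fin n → Fin m, ‖T (fun k => x k (j k))‖ₑ ^ p) ^ (1 / p) ≤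
      C * ⨆ φ : {φ : ContinuousMultilinearMap 𝕜 E 𝕜 // ‖φ‖ ≤ 1},
        (∑ j : Fin n → Fin m, ‖φ.1 (fun k => x k (j k))‖ₑ ^ p) ^ (1 / p)

end defs

section signs

variable {𝕜 : Type} [RCLike 𝕜]

theorem exists_signs {V ι : Type} [NormedAddCommGroup V] [InnerProductSpace 𝕜 V]
    [DecidableEq ι] (a : ι → V) (s : Finset ι) :
    ∃ ε : ι → 𝕜, (∀ i, ‖ε i‖ = 1) ∧ ∑ i ∈ s, ‖a i‖ ^ 2 ≤ ‖∑ i ∈ s, ε i • a i‖ ^ 2 := by
  induction s using Finset.induction_on with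
  | empty => exact ⟨fun _ => 1, fun _ => by simp, by simp⟩
  | insert i s hi ih =>
    obtain ⟨ε, h1, h2⟩ := ih
    have hpar := parallelogram_law_with_norm 𝕜 (∑ j ∈ s, ε j • a j) (a i)
    have key : ∀ c : 𝕜, ‖c‖ = 1 →
        ‖(∑ j ∈ s, ε j • a j)‖ ^ 2 + ‖a i‖ ^ 2 ≤ ‖(∑ j ∈ s, ε j • a j) + c • a i‖ ^ 2 →
        ∃ ε' : ι → 𝕜, (∀ i, ‖ε' i‖ = 1) ∧
          ∑ j ∈ insert i s, ‖a j‖ ^ 2 ≤ ‖∑ j ∈ insert i s, ε' j • a j‖ ^ 2 := by
      intro c hc hle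
      refine ⟨Function.update ε i c, ?_, ?_⟩
      · intro j
        by_cases hj : j = i
        · subst hj; simpa using hc
        · simpa [Function.update_of_ne hj] using h1 j
      · rw [Finset.sum_insert hi, Finset.sum_insert hi]
        have h3 : ∑ j ∈ s, Function.update ε i c j • a j = ∑ j ∈ s, ε j • a j := by
          apply Finset.sum_congr rfl
          intro j hj
          rw [Function.update_of_ne (by rintro rfl; exact hi hj)]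
        rw [h3, Function.update_self, add_comm (c • a i)]
        linarith
    by_cases hc : ‖(∑ j ∈ s, ε j • a j)‖ ^ 2 + ‖a i‖ ^ 2 ≤
        ‖(∑ j ∈ s, ε j • a j) + (1 : 𝕜) • a i‖ ^ 2
    · exact key 1 (by simp) hc
    · refine key (-1) (by simp) ?_
      rw [one_smul] at hc
      rw [neg_one_smul, ← sub_eq_add_neg]
      push Not at hc
      nlinarith

theorem exists_signs_two {m : ℕ} (c : Fin m → Fin m → 𝕜) :
    ∃ ε δ : Fin m → 𝕜, (∀ i, ‖ε i‖ = 1) ∧ (∀ i, ‖δ i‖ = 1) ∧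
      ∑ i, ∑ j, ‖c i j‖ ^ 2 ≤ ‖∑ i, ∑ j, ε i * δ j * c i j‖ ^ 2 := by
  obtain ⟨ε, h1, h2⟩ := exists_signs (𝕜 := 𝕜) (V := EuclideanSpace 𝕜 (Fin m))
    (fun i => WithLp.toLp 2 (fun j => c i j)) Finset.univ
  obtain ⟨δ, h3, h4⟩ := exists_signs (𝕜 := 𝕜) (V := 𝕜)
    (fun j => ∑ i, ε i * c i j) Finset.univ
  refine ⟨ε, δ, h1, h3, ?_⟩
  have h5 : ∀ i, ‖(WithLp.toLp 2 (fun j => c i j) : EuclideanSpace 𝕜 (Fin m))‖ ^ 2 =
      ∑ j, ‖c i j‖ ^ 2 := fun i => EuclideanSpace.norm_sq_eq _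
  have h6 : ‖∑ i, ε i • (WithLp.toLp 2 (fun j => c i j) : EuclideanSpace 𝕜 (Fin m))‖ ^ 2 =
      ∑ j, ‖∑ i, ε i * c i j‖ ^ 2 := by
    rw [EuclideanSpace.norm_sq_eq]
    apply Finset.sum_congr rfl
    intro j _
    simp
  rw [Finset.sum_congr rfl (fun i _ => h5 i), h6] at h2
  refine le_trans h2 (le_trans h4 (le_of_eq ?_))
  congr 2
  simp only [smul_eq_mul, Finset.mul_sum]
  rw [Finset.sum_comm]
  apply Finset.sum_congr rfl
  intro i _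
  apply Finset.sum_congr rfl
  intro j _
  ring

end signs

section example_

variable (𝕜 : Type) [RCLike 𝕜]

/-- The weights. -/
noncomputable def wt (q : ℕ × ℕ) : ℝ := 1 / ((max q.1 q.2 : ℕ) + 1)

theorem wt_pos (q : ℕ × ℕ) : 0 < wt q := by unfold wt; positivity

theorem wt_le_one (q : ℕ × ℕ) : wt q ≤ 1 := by
  unfold wt
  rw [div_le_one (by positivity)]
  have : (0 : ℝ) ≤ ((max q.1 q.2 : ℕ) : ℝ) := by positivity
  linarith

theorem wt_le_left (q : ℕ × ℕ) : wt q ≤ 1 / ((q.1 : ℝ) + 1) := by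
  unfold wt
  apply one_div_le_one_div_of_le (by positivity)
  have : ((q.1 : ℕ) : ℝ) ≤ ((max q.1 q.2 : ℕ) : ℝ) := by
    exact_mod_cast le_max_left _ _
  linarith

theorem wt_le_right (q : ℕ × ℕ) : wt q ≤ 1 / ((q.2 : ℝ) + 1) := by
  unfold wt
  apply one_div_le_one_div_of_le (by positivity)
  have : ((q.2 : ℕ) : ℝ) ≤ ((max q.1 q.2 : ℕ) : ℝ) := by
    exact_mod_cast le_max_right _ _
  linarith

theorem exVal_bound (v : ∀ _ : Fin 2, (ℕ →ᵇ 𝕜)) (q : ℕ × ℕ) :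
    ‖(wt q : 𝕜) * (v 0 q.1 * v 1 q.2)‖ ≤ 1 * ∏ i, ‖v i‖ := by
  rw [norm_mul, norm_mul, RCLike.norm_ofReal, abs_of_pos (wt_pos q), Fin.prod_univ_two]
  have h1 := (v 0).norm_coe_le_norm q.1
  have h2 := (v 1).norm_coe_le_norm q.2
  have h3 := wt_le_one q
  have h4 := (wt_pos q).le
  gcongr

/-- The bilinear map `(a, b) ↦ (a_i b_j / (max i j + 1))`. -/
noncomputable def exMulti : MultilinearMap 𝕜 (fun _ : Fin 2 => (ℕ →ᵇ 𝕜)) ((ℕ × ℕ) →ᵇ 𝕜) where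
  toFun v := BoundedContinuousFunction.ofNormedAddCommGroupDiscrete
    (fun q : ℕ × ℕ => (wt q : 𝕜) * (v 0 q.1 * v 1 q.2)) (1 * ∏ i, ‖v i‖) (exVal_bound 𝕜 v)
  map_update_add' := by
    intro inst v i x y
    have : inst = instDecidableEqFin 2 := Subsingleton.elim _ _
    subst this
    ext q
    fin_cases i
    · simp
      ring
    · simp
      ring
  map_update_smul' := by
    intro inst v i c x
    have : inst = instDecidableEqFin 2 := Subsingleton.elim _ _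
    subst this
    ext q
    fin_cases i
    · simp
      ring
    · simp
      ring

/-- The continuous bilinear map of the counterexample. -/
noncomputable def exT :
    ContinuousMultilinearMap 𝕜 (fun _ : Fin 2 => (ℕ →ᵇ 𝕜)) ((ℕ × ℕ) →ᵇ 𝕜) :=
  (exMulti 𝕜).mkContinuous 1 (fun v => by
    rw [BoundedContinuousFunction.norm_le (by positivity)]
    exact exVal_bound 𝕜 v)

theorem exT_apply (v : ∀ _ : Fin 2, (ℕ →ᵇ 𝕜)) (q : ℕ × ℕ) :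
    exT 𝕜 v q = (wt q : 𝕜) * (v 0 q.1 * v 1 q.2) := rfl

/-- Evaluation at a point as a functional. -/
noncomputable def evalAt (i : ℕ) : {φ : (ℕ →ᵇ 𝕜) →L[𝕜] 𝕜 // ‖φ‖ ≤ 1} :=
  ⟨BoundedContinuousFunction.evalCLM 𝕜 i, by
    apply ContinuousLinearMap.opNorm_le_bound _ zero_le_one
    intro f
    rw [one_mul]
    exact f.norm_coe_le_norm i⟩

theorem rpow_half_two (a : ℝ≥0∞) : (a ^ (1 / (2 : ℝ))) ^ (2 : ℝ) = a := by
  rw [← ENNReal.rpow_mul]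
  norm_num

theorem rpow_two_half (a : ℝ≥0∞) : (a ^ (2 : ℝ)) ^ (1 / (2 : ℝ)) = a := by
  rw [← ENNReal.rpow_mul]
  norm_num

theorem sq_sum_le_weak (x : ℕ → (ℕ →ᵇ 𝕜)) (i : ℕ) :
    ∑' j, ‖x j i‖ₑ ^ (2 : ℝ) ≤ weakNorm 𝕜 2 x ^ (2 : ℝ) := by
  have h := le_iSup (fun φ : {φ : (ℕ →ᵇ 𝕜) →L[𝕜] 𝕜 // ‖φ‖ ≤ 1} =>
    (∑' j, ‖φ.1 (x j)‖ₑ ^ (2 : ℝ)) ^ (1 / (2 : ℝ))) (evalAt 𝕜 i)
  have h2 := ENNReal.rpow_le_rpow h (by norm_num : (0 : ℝ) ≤ 2)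
  rw [rpow_half_two] at h2
  exact h2

theorem summable_const :
    ∃ K : NNReal, ∑' i : ℕ, ENNReal.ofReal ((1 / ((i : ℝ) + 1)) ^ 2) ≤ K := by
  have hs : Summable (fun i : ℕ => (1 / ((i : ℝ) + 1)) ^ 2) := by
    have := (summable_nat_add_iff (f := fun n : ℕ => 1 / (n : ℝ) ^ 2) 1).mpr
      (Real.summable_one_div_nat_pow.mpr (by norm_num))
    refine this.congr (fun n => ?_)
    push_cast
    rw [div_pow, one_pow]
  refine ⟨Real.toNNReal (∑' i : ℕ, (1 / ((i : ℝ) + 1)) ^ 2), ?_⟩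
  rw [← ENNReal.ofReal_tsum_of_nonneg (fun i => by positivity) hs]
  rfl

/-- The key summability estimate. -/
theorem key_sum (x : ℕ → (ℕ →ᵇ 𝕜)) (A : ℝ≥0∞) (K : NNReal)
    (hK : ∑' i : ℕ, ENNReal.ofReal ((1 / ((i : ℝ) + 1)) ^ 2) ≤ K)
    (f : ℕ → ((ℕ × ℕ) →ᵇ 𝕜))
    (hf : ∀ j q, ∃ i : ℕ, ‖f j q‖ₑ ≤ ENNReal.ofReal (1 / ((i : ℝ) + 1)) * ‖x j i‖ₑ * A) :
    (∑' j, ‖f j‖ₑ ^ (2 : ℝ)) ^ (1 / (2 : ℝ)) ≤ (NNReal.sqrt K : NNReal) * weakNorm 𝕜 2 x * A := by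
  have h1 : ∀ j, ‖f j‖ₑ ^ (2 : ℝ) ≤
      A ^ (2 : ℝ) * ∑' i : ℕ, ENNReal.ofReal ((1 / ((i : ℝ) + 1)) ^ 2) * ‖x j i‖ₑ ^ (2 : ℝ) := by
    intro j
    rw [BoundedContinuousFunction.enorm_eq_iSup_enorm]
    have h2 : ∀ q, ‖f j q‖ₑ ≤ (A ^ (2 : ℝ) * ∑' i : ℕ,
        ENNReal.ofReal ((1 / ((i : ℝ) + 1)) ^ 2) * ‖x j i‖ₑ ^ (2 : ℝ)) ^ (1 / (2 : ℝ)) := by
      intro q
      obtain ⟨i, hi⟩ := hf j q
      refine le_trans hi ?_
      have h3 : ENNReal.ofReal (1 / ((i : ℝ) + 1)) * ‖x j i‖ₑ * A =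
          (A ^ (2 : ℝ) * (ENNReal.ofReal ((1 / ((i : ℝ) + 1)) ^ 2) * ‖x j i‖ₑ ^ (2 : ℝ))) ^
            (1 / (2 : ℝ)) := by
        have h4 : ENNReal.ofReal ((1 / ((i : ℝ) + 1)) ^ 2) =
            (ENNReal.ofReal (1 / ((i : ℝ) + 1))) ^ (2 : ℝ) := by
          rw [ENNReal.ofReal_pow (by positivity)]
          norm_num
        rw [h4, ← ENNReal.mul_rpow_of_nonneg _ _ (by norm_num),
          ← ENNReal.mul_rpow_of_nonneg _ _ (by norm_num), rpow_two_half]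
        ring
      rw [h3]
      apply ENNReal.rpow_le_rpow _ (by norm_num)
      gcongr
      exact ENNReal.le_tsum i
    have h5 := ENNReal.rpow_le_rpow (iSup_le h2) (by norm_num : (0 : ℝ) ≤ 2)
    rw [rpow_half_two] at h5
    exact h5
  have h2 : ∑' j, ‖f j‖ₑ ^ (2 : ℝ) ≤ A ^ (2 : ℝ) * (K * weakNorm 𝕜 2 x ^ (2 : ℝ)) := by
    calc ∑' j, ‖f j‖ₑ ^ (2 : ℝ) ≤ ∑' j, A ^ (2 : ℝ) *
          ∑' i : ℕ, ENNReal.ofReal ((1 / ((i : ℝ) + 1)) ^ 2) * ‖x j i‖ₑ ^ (2 : ℝ) :=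
          ENNReal.tsum_le_tsum h1
      _ = A ^ (2 : ℝ) * ∑' i : ℕ, ENNReal.ofReal ((1 / ((i : ℝ) + 1)) ^ 2) *
            ∑' j, ‖x j i‖ₑ ^ (2 : ℝ) := by
          rw [ENNReal.tsum_mul_left, ENNReal.tsum_comm]
          congr 1
          apply tsum_congr
          intro i
          rw [ENNReal.tsum_mul_left]
      _ ≤ A ^ (2 : ℝ) * ∑' i : ℕ, ENNReal.ofReal ((1 / ((i : ℝ) + 1)) ^ 2) *
            weakNorm 𝕜 2 x ^ (2 : ℝ) := by
          gcongr with i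
          exact sq_sum_le_weak 𝕜 x i
      _ ≤ A ^ (2 : ℝ) * (K * weakNorm 𝕜 2 x ^ (2 : ℝ)) := by
          rw [ENNReal.tsum_mul_right]
          gcongr
  refine le_trans (ENNReal.rpow_le_rpow h2 (by norm_num : (0 : ℝ) ≤ 1 / 2)) (le_of_eq ?_)
  rw [ENNReal.mul_rpow_of_nonneg _ _ (by norm_num), ENNReal.mul_rpow_of_nonneg _ _ (by norm_num),
    rpow_two_half, rpow_two_half]
  have h3 : ((K : NNReal) : ℝ≥0∞) ^ (1 / (2 : ℝ)) = ((NNReal.sqrt K : NNReal) : ℝ≥0∞) := by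
    rw [NNReal.sqrt_eq_rpow, ENNReal.coe_rpow_of_nonneg _ (by norm_num)]
  rw [h3]
  ring

theorem exT_quasi : QuasiSumming 2 (exT 𝕜) := by
  obtain ⟨K, hK⟩ := summable_const
  intro k
  refine ⟨NNReal.sqrt K, fun a x _ => ?_⟩
  have hw : ∀ q : ℕ × ℕ, ‖((wt q : ℝ) : 𝕜)‖ₑ = ENNReal.ofReal (wt q) := by
    intro q
    rw [← ofReal_norm, RCLike.norm_ofReal, abs_of_pos (wt_pos q)]
  fin_cases k
  · have hprod : ∏ i ∈ Finset.univ.erase (0 : Fin 2), ‖a i‖ₑ = ‖a 1‖ₑ := by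
      have : (Finset.univ.erase (0 : Fin 2)) = {1} := by decide
      rw [this, Finset.prod_singleton]
    show (∑' j, ‖exT 𝕜 (Function.update a 0 (x j))‖ₑ ^ (2 : ℝ)) ^ (1 / (2 : ℝ)) ≤
      (NNReal.sqrt K : NNReal) * weakNorm 𝕜 2 x * ∏ i ∈ Finset.univ.erase (0 : Fin 2), ‖a i‖ₑ
    rw [hprod]
    apply key_sum 𝕜 x _ K hK
    intro j q
    refine ⟨q.1, ?_⟩
    rw [exT_apply, enorm_mul, enorm_mul, hw, mul_assoc]
    simp only [Function.update_self, Function.update_of_ne (one_ne_zero : (1 : Fin 2) ≠ 0)]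
    have h8 := wt_le_left q
    have h9 : ‖(a 1) q.2‖ₑ ≤ ‖a 1‖ₑ := by
      rw [BoundedContinuousFunction.enorm_eq_iSup_enorm (f := a 1)]
      exact le_iSup (fun t => ‖a 1 t‖ₑ) q.2
    gcongr
  · have hprod : ∏ i ∈ Finset.univ.erase (1 : Fin 2), ‖a i‖ₑ = ‖a 0‖ₑ := by
      have : (Finset.univ.erase (1 : Fin 2)) = {0} := by decide
      rw [this, Finset.prod_singleton]
    show (∑' j, ‖exT 𝕜 (Function.update a 1 (x j))‖ₑ ^ (2 : ℝ)) ^ (1 / (2 : ℝ)) ≤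
      (NNReal.sqrt K : NNReal) * weakNorm 𝕜 2 x * ∏ i ∈ Finset.univ.erase (1 : Fin 2), ‖a i‖ₑ
    rw [hprod]
    apply key_sum 𝕜 x _ K hK
    intro j q
    refine ⟨q.2, ?_⟩
    rw [exT_apply, enorm_mul, enorm_mul, hw, mul_assoc, mul_comm (‖(x j) q.2‖ₑ)]
    simp only [Function.update_self, Function.update_of_ne (zero_ne_one : (0 : Fin 2) ≠ 1)]
    have h8 := wt_le_right q
    have h9 : ‖(a 0) q.1‖ₑ ≤ ‖a 0‖ₑ := by
      rw [BoundedContinuousFunction.enorm_eq_iSup_enorm (f := a 0)]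
      exact le_iSup (fun t => ‖a 0 t‖ₑ) q.1
    gcongr

/-- The unit vectors. -/
noncomputable def unitVec (i : ℕ) : ℕ →ᵇ 𝕜 :=
  BoundedContinuousFunction.ofNormedAddCommGroupDiscrete (fun n => if n = i then (1 : 𝕜) else 0) 1
    (fun n => by split_ifs <;> simp)

theorem unitVec_apply (i n : ℕ) : unitVec 𝕜 i n = if n = i then (1 : 𝕜) else 0 := rfl

theorem norm_signsum_le {m : ℕ} (ε : Fin m → 𝕜) (hε : ∀ i, ‖ε i‖ = 1) :
    ‖∑ i, ε i • unitVec 𝕜 (i : ℕ)‖ ≤ 1 := by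
  rw [BoundedContinuousFunction.norm_le zero_le_one]
  intro n
  rw [BoundedContinuousFunction.coe_sum, Finset.sum_apply]
  by_cases hn : n < m
  · rw [Finset.sum_eq_single (⟨n, hn⟩ : Fin m)]
    · simp [unitVec_apply, hε]
    · intro b _ hb
      have : n ≠ (b : ℕ) := by
        rintro rfl
        exact hb rfl
      simp [unitVec_apply, this]
    · simp
  · rw [Finset.sum_eq_zero]
    · simp
    · intro b _
      have : n ≠ (b : ℕ) := by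
        have := b.2
        omega
      simp [unitVec_apply, this]

theorem form_bound {m : ℕ} (φ : ContinuousMultilinearMap 𝕜 (fun _ : Fin 2 => (ℕ →ᵇ 𝕜)) 𝕜)
    (hφ : ‖φ‖ ≤ 1) :
    ∑ j : Fin 2 → Fin m, ‖φ (fun k => unitVec 𝕜 (j k : ℕ))‖ ^ 2 ≤ 1 := by
  obtain ⟨ε, δ, h1, h2, h3⟩ := exists_signs_two (𝕜 := 𝕜) (m := m)
    (fun i j => φ (fun k => unitVec 𝕜 ((![i, j] k : Fin m) : ℕ)))
  have h4 : ∑ j : Fin 2 → Fin m, ‖φ (fun k => unitVec 𝕜 (j k : ℕ))‖ ^ 2 =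
      ∑ i, ∑ j, ‖φ (fun k => unitVec 𝕜 ((![i, j] k : Fin m) : ℕ))‖ ^ 2 := by
    rw [← Fintype.sum_prod_type' (f := fun i j => ‖φ (fun k => unitVec 𝕜
      ((![i, j] k : Fin m) : ℕ))‖ ^ 2), ← (finTwoArrowEquiv (Fin m)).sum_comp]
    apply Finset.sum_congr rfl
    intro j _
    congr 3
    ext k
    fin_cases k <;> rfl
  rw [h4]
  refine le_trans h3 ?_
  have h5 : φ (fun k => ∑ i : Fin m, (![ε, δ] k i) • unitVec 𝕜 (i : ℕ)) =
      ∑ i, ∑ j, ε i * δ j * φ (fun k => unitVec 𝕜 ((![i, j] k : Fin m) : ℕ)) := by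
    rw [ContinuousMultilinearMap.map_sum,
      ← Fintype.sum_prod_type' (f := fun i j => ε i * δ j * φ (fun k => unitVec 𝕜
      ((![i, j] k : Fin m) : ℕ))), ← (finTwoArrowEquiv (Fin m)).sum_comp]
    apply Finset.sum_congr rfl
    intro j _
    rw [ContinuousMultilinearMap.map_smul_univ, Fin.prod_univ_two, smul_eq_mul]
    congr 2
    ext k
    fin_cases k <;> rfl
  rw [← h5]
  have h6 : ‖φ (fun k => ∑ i : Fin m, (![ε, δ] k i) • unitVec 𝕜 (i : ℕ))‖ ≤ 1 := by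
    refine le_trans (φ.le_opNorm _) ?_
    rw [Fin.prod_univ_two]
    have ha := norm_signsum_le 𝕜 ε h1
    have hb := norm_signsum_le 𝕜 δ h2
    calc ‖φ‖ * (‖∑ i : Fin m, (![ε, δ] 0 i) • unitVec 𝕜 (i : ℕ)‖ *
          ‖∑ i : Fin m, (![ε, δ] 1 i) • unitVec 𝕜 (i : ℕ)‖) ≤ 1 * (1 * 1) := by
          gcongr
          · exact ha
          · exact hb
      _ = 1 := by norm_num
  calc ‖φ (fun k => ∑ i : Fin m, (![ε, δ] k i) • unitVec 𝕜 (i : ℕ))‖ ^ 2 ≤ 1 ^ 2 := by gcongr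
    _ = 1 := one_pow 2

theorem lower (m : ℕ) :
    ∑ j ∈ Finset.range m, 1 / ((j : ℝ) + 1) ≤
      ∑ j : Fin 2 → Fin m, ‖exT 𝕜 (fun k => unitVec 𝕜 (j k : ℕ))‖ ^ 2 := by
  have h4 : ∑ j : Fin 2 → Fin m, ‖exT 𝕜 (fun k => unitVec 𝕜 (j k : ℕ))‖ ^ 2 =
      ∑ i, ∑ j, ‖exT 𝕜 (fun k => unitVec 𝕜 ((![i, j] k : Fin m) : ℕ))‖ ^ 2 := by
    rw [← Fintype.sum_prod_type' (f := fun i j => ‖exT 𝕜 (fun k => unitVec 𝕜
      ((![i, j] k : Fin m) : ℕ))‖ ^ 2), ← (finTwoArrowEquiv (Fin m)).sum_comp]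
    apply Finset.sum_congr rfl
    intro j _
    congr 3
    ext k
    fin_cases k <;> rfl
  have h5 : ∀ i j : Fin m, (wt ((i : ℕ), (j : ℕ))) ^ 2 ≤
      ‖exT 𝕜 (fun k => unitVec 𝕜 ((![i, j] k : Fin m) : ℕ))‖ ^ 2 := by
    intro i j
    have h := (exT 𝕜 (fun k => unitVec 𝕜 ((![i, j] k : Fin m) : ℕ))).norm_coe_le_norm
      ((i : ℕ), (j : ℕ))
    rw [exT_apply] at h
    have h7 : (unitVec 𝕜 ((![i, j] 0 : Fin m) : ℕ)) (i : ℕ) = 1 := by simp [unitVec_apply]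
    have h8 : (unitVec 𝕜 ((![i, j] 1 : Fin m) : ℕ)) (j : ℕ) = 1 := by simp [unitVec_apply]
    simp only [h7, h8, mul_one, RCLike.norm_ofReal, abs_of_pos (wt_pos _)] at h
    have := (wt_pos ((i : ℕ), (j : ℕ))).le
    gcongr
  rw [h4]
  calc ∑ j ∈ Finset.range m, 1 / ((j : ℝ) + 1)
      = ∑ j : Fin m, 1 / (((j : ℕ) : ℝ) + 1) :=
        (Fin.sum_univ_eq_sum_range (fun j => 1 / ((j : ℝ) + 1)) m).symm
    _ ≤ ∑ j : Fin m, ∑ i : Fin m, (wt ((i : ℕ), (j : ℕ))) ^ 2 := by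
        apply Finset.sum_le_sum
        intro j _
        have h9 : ∑ i ∈ Finset.Iic j, (wt ((i : ℕ), (j : ℕ))) ^ 2 = 1 / (((j : ℕ) : ℝ) + 1) := by
          have : ∀ i ∈ Finset.Iic j, (wt ((i : ℕ), (j : ℕ))) ^ 2 =
              (1 / (((j : ℕ) : ℝ) + 1)) ^ 2 := by
            intro i hi
            rw [Finset.mem_Iic] at hi
            have : max (i : ℕ) (j : ℕ) = (j : ℕ) := max_eq_right hi
            unfold wt
            rw [this]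
          rw [Finset.sum_congr rfl this, Finset.sum_const, Fin.card_Iic, nsmul_eq_mul]
          push_cast
          field_simp
        rw [← h9]
        apply Finset.sum_le_sum_of_subset_of_nonneg (Finset.subset_univ _)
        intro i _ _
        positivity
    _ = ∑ i : Fin m, ∑ j : Fin m, (wt ((i : ℕ), (j : ℕ))) ^ 2 := Finset.sum_comm
    _ ≤ _ := Finset.sum_le_sum fun i _ => Finset.sum_le_sum fun j _ => h5 i j

theorem exT_not_strong : ¬ StrongMultipleSumming 2 (exT 𝕜) := by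
  rintro ⟨C, hC⟩
  have hbound : ∀ m : ℕ, ∑ j ∈ Finset.range m, 1 / ((j : ℝ) + 1) ≤ (C : ℝ) ^ 2 := by
    intro m
    have h := hC m (fun _ j => unitVec 𝕜 (j : ℕ))
    have hconv : ∀ (G : Type) [NormedAddCommGroup G] (g : (Fin 2 → Fin m) → G),
        (∑ j : Fin 2 → Fin m, ‖g j‖ₑ ^ (2 : ℝ)) = ENNReal.ofReal (∑ j, ‖g j‖ ^ 2) := by
      intro G _ g
      rw [ENNReal.ofReal_sum_of_nonneg (fun _ _ => by positivity)]
      apply Finset.sum_congr rfl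
      intro j _
      rw [ENNReal.ofReal_pow (norm_nonneg _), ofReal_norm]
      norm_num
    have hsup : (⨆ φ : {φ : ContinuousMultilinearMap 𝕜 (fun _ : Fin 2 => (ℕ →ᵇ 𝕜)) 𝕜 //
        ‖φ‖ ≤ 1}, (∑ j : Fin 2 → Fin m, ‖φ.1 (fun k => unitVec 𝕜 (j k : ℕ))‖ₑ ^ (2 : ℝ)) ^
          (1 / (2 : ℝ))) ≤ 1 := by
      apply iSup_le
      rintro ⟨φ, hφ⟩
      rw [hconv 𝕜 (fun j => φ (fun k => unitVec 𝕜 (j k : ℕ)))]
      have := form_bound 𝕜 (m := m) φ hφ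
      have h1 : ENNReal.ofReal (∑ j : Fin 2 → Fin m, ‖φ (fun k => unitVec 𝕜 (j k : ℕ))‖ ^ 2) ≤ 1 :=
        ENNReal.ofReal_le_one.mpr this
      calc _ ≤ (1 : ℝ≥0∞) ^ (1 / (2 : ℝ)) := ENNReal.rpow_le_rpow h1 (by norm_num)
        _ = 1 := ENNReal.one_rpow _
    have h2 : (∑ j : Fin 2 → Fin m, ‖exT 𝕜 (fun k => unitVec 𝕜 (j k : ℕ))‖ₑ ^ (2 : ℝ)) ^
        (1 / (2 : ℝ)) ≤ C := by
      refine le_trans h ?_
      calc (C : ℝ≥0∞) * _ ≤ C * 1 := by gcongr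
        _ = C := mul_one _
    have h3 := ENNReal.rpow_le_rpow h2 (by norm_num : (0 : ℝ) ≤ 2)
    rw [← ENNReal.rpow_mul, hconv] at h3
    norm_num at h3
    have h4 : (∑ j : Fin 2 → Fin m, ‖exT 𝕜 (fun k => unitVec 𝕜 (j k : ℕ))‖ ^ 2) ≤ (C : ℝ) ^ 2 := by
      have h5 : ((C : NNReal) : ℝ≥0∞) ^ 2 = ENNReal.ofReal ((C : ℝ) ^ 2) := by
        rw [ENNReal.ofReal_pow (NNReal.coe_nonneg C), ENNReal.ofReal_coe_nnreal]
      rw [h5] at h3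
      exact (ENNReal.ofReal_le_ofReal_iff (by positivity)).mp h3
    exact le_trans (lower 𝕜 m) h4
  have ht := Real.tendsto_sum_range_one_div_nat_succ_atTop
  obtain ⟨m, hm⟩ := (ht.eventually_gt_atTop ((C : ℝ) ^ 2)).exists
  exact absurd (hbound m) (not_le.mpr hm)

end example_

/-- Over `ℝ` and over `ℂ`, it is false that the strongly multiple `p`-summing maps coincide with
the quasi-absolutely `p`-summing maps for all `p ≥ 1`, all `n ≥ 1` and all Banach spaces. -/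
theorem result (𝕜 : Type) [RCLike 𝕜] :
    ¬ ∀ (p : ℝ), 1 ≤ p → ∀ (n : ℕ), 1 ≤ n → ∀ (E : Fin n → Type) (F : Type)
      [∀ i, NormedAddCommGroup (E i)] [∀ i, NormedSpace 𝕜 (E i)] [∀ i, CompleteSpace (E i)]
      [NormedAddCommGroup F] [NormedSpace 𝕜 F] [CompleteSpace F]
      (T : ContinuousMultilinearMap 𝕜 E F),
      StrongMultipleSumming p T ↔ QuasiSumming p T := by
  intro H
  exact exT_not_strong 𝕜 ((H 2 (by norm_num) 2 (by norm_num) (fun _ => (ℕ →ᵇ 𝕜))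
    ((ℕ × ℕ) →ᵇ 𝕜) (exT 𝕜)).mpr (exT_quasi 𝕜))

end Pool.Agent.Results.MP_3dc8bf_an.QsNotSm
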